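import Pool.Agent.U345.PowM
import Pool.Agent.U345.PowD

/-!
# Beilinson's conjecture at the centre: products of powers of random curves with given rational points

Let `C_i : y² = f_i(x)`, `i < r`, be hyperelliptic curves over `ℚ`, `f_i` of odd degree, and `V = ∏ C_i^{e_i}`. If `a_i(p)` is the trace of Frobenius
on `H¹(C_i)`, then by Künneth the trace `a_p(V)` on `H^k(V)` is the coefficient of `X^k` in `∏ (1 + a_i X + p X²)^{e_i}`. Let `k = 2 m - 1`. The main part of the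
logarithm of the partial Euler product of `L(H^{2m-1}(V), s)` over `p ≤ Y` at the central point `s = m` is `∑_{p ≤ Y} a_p(V) / p^m`, and a zero
of order `R` corresponds to a mean value `- R` of `a_p(V) / p^{m-1}`. Beilinson's conjecture predicts `R = dim CH^m(V)^0 ⊗ ℚ`.

**The family.** Let `x_{i,1}, …, x_{i,q_i}` be different integers, `c_{i,k} ≠ 0` integers, `F_i` a polynomial of degree less than `q_i + d_i` with
`F_i(x_{i,k}) = c_{i,k}²`, and `f_i = F_i + ∏_k (x - x_{i,k}) h_i` with a random polynomial `h_i` of degree `d_i`, its coefficients being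
equidistributed in a box. So `(x_{i,k}, c_{i,k})` are `q_i` rational points of `C_i`, and one expects that for a general member they generate a
group of rank `q_i` of finite index in the Mordell-Weil group of the Jacobian.

**Theorem.** Let `e_i ≥ 1`, `1 ≤ m ≤ ∑ e_i`, `d_i + 1 ≥ 4 min(2 m - 1, e_i)`. Let `T_k(e)` be the coefficient of `X^k` in `∏ (1 + Z_i X + X²)^{e_i}`, `Z_i`
independent standard normal variables, `μ_k(e) = E T_k(e)`, `σ² = E T_{2m-1}(e)² > 0`, and

`R = ∑_i e_i q_i μ_{2m-2}(e - 1_i)`.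

On the scale of `log log` the sums `- ∑_{p ≤ Y} a_p(V) / p^m` grow like `R log log Y`, with the fluctuations of a Brownian motion: the processes

`s ↦ (1 / σ) (log log X)^(-1/2) ∑_{p ≤ exp((log X)^s)} (- a_p(V) / p^m - R / p)`,   `0 ≤ s ≤ 1`,

converge for `X → ∞` to the standard Brownian motion, if the sides of the box are larger than a power of `X`: finite dimensional distributions and
tightness. All `f_i` are separable of degree `q_i + d_i` for all points of the box except for a proportion `O(1 / T)`, `T` the smallest side.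

The number `μ_{2m-2}(e - 1_i)` is the mean of the traces on `H^{2m-2}(W)(m - 1)` for the product `W = V / C_i` (one factor `C_i` omitted; see
`MP_1f4fc7_nt.PowersOfRandomCurves`): by Tate's conjecture this is the number of the independent classes of cycles of codimension `m - 1` of `W`. The products
of these cycles with the `q_i` divisors `(x_{i,k}, c_{i,k}) - ∞` of the factor, for the `e_i` factors, are the expected generators of
`CH^m(V)^0 ⊗ ℚ`; so `R` is the rank predicted by Beilinson. For `m = 1` we have `R = ∑ e_i q_i` and `σ² = ∑ e_i²`.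

Nothing is proved for a single variety. `MP_6dc9d1_nt.CentralSumsBrownian` is about members of linear systems, where the trace is a sum over the points of
functions of independent values, and `MP_ad1693_nt.BrownianLaw` about elliptic curves.

Proof. The values of `h_i` at `d_i + 1` points are independent; so (library `Q285HS.mom_near`) the moments of `a_i(p) / √p` of order at most `d_i + 1` are
near those of the normal law. New: the moments of odd order up to the second order, `- q_i k E Z^{k-1} / √p + O(1 / p)` (`U345.PowR`), so the mean of a polynomial of odd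
degree in several traces is `- (∑ q_i E ∂_i P(Z)) / √p + O(1 / p)` (`U345.PowQ`); `∂_i T_k(e) = e_i T_{k-1}(e - 1_i)` (`U345.PowD`); the limit theorem on the scale
of `log log` with tightness by an own maximal inequality (`U345.LL`, `U345.ConvLL`); separability by a pencil argument (`U345.PowM`).
-/

set_option autoImplicit false

namespace Pool.Agent.Results.MP_29b22a_nt.PowersOfRandomCurves

open Finset MeasureTheory ProbabilityTheory Polynomial
open scoped NNReal

/-- The indices `(i, j)` of the coefficients of the polynomials `h_i` of degree `d_i`. -/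
abbrev Index {r : ℕ} (d : Fin r → ℕ) : Type := (i : Fin r) × Fin (d i + 1)

/-- The data of the family: the polynomials `F_i` and the numbers `x_{i,k}`. -/
structure Family (r : ℕ) where
  /-- the degrees of the `h_i` -/
  d : Fin r → ℕ
  /-- the numbers of the points -/
  q : Fin r → ℕ
  /-- the polynomials `F_i` -/
  F : Fin r → ℤ[X]
  /-- the abscissas of the points -/
  x : (i : Fin r) → Fin (q i) → ℤ
  /-- the ordinates of the points -/
  c : (i : Fin r) → Fin (q i) → ℤ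
  x_inj : ∀ i, Function.Injective (x i)
  c_ne : ∀ i k, c i k ≠ 0
  value : ∀ i k, (F i).eval (x i k) = c i k ^ 2
  deg : ∀ i, (F i).natDegree < q i + d i
  odd : ∀ i, Odd (q i + d i)

variable {r : ℕ} (𝓕 : Family r)

/-- The polynomial `f_i = F_i + ∏_k (x - x_{i,k}) ∑_j t(i, j) x^j`. -/
noncomputable def poly (t : Index 𝓕.d → ℤ) (i : Fin r) : ℤ[X] :=
  𝓕.F i + (∏ k, (X - C (𝓕.x i k))) * ∑ j : Fin (𝓕.d i + 1), C (t ⟨i, j⟩) * X ^ (j : ℕ)

/-- `a_i(p)`: `p` minus the number of the affine points of `y² = f_i(x)` over the field with `p` elements. -/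
noncomputable def a (t : Index 𝓕.d → ℤ) (p : ℕ) (i : Fin r) : ℝ :=
  (p : ℝ) - ({P : ZMod p × ZMod p | P.2 ^ 2 = ((poly 𝓕 t i).map (Int.castRingHom (ZMod p))).eval P.1}.ncard : ℝ)

/-- The trace of Frobenius on `H^k(V)`, `V = ∏ C_i^{e_i}`: the coefficient of `X^k` in `∏ (1 + a_i X + p X²)^{e_i}`. -/
noncomputable def trace (e : Fin r → ℕ) (k : ℕ) (t : Index 𝓕.d → ℤ) (p : ℕ) : ℝ :=
  (∏ i, (1 + C (a 𝓕 t p i) * X + C (p : ℝ) * X ^ 2) ^ e i : ℝ[X]).coeff k

/-- The polynomial `T_k(e)` in the indeterminates `Z_i`: the coefficient of `X^k` in `∏ (1 + Z_i X + X²)^{e_i}`. -/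
noncomputable def kunneth (e : Fin r → ℕ) (k : ℕ) : MvPolynomial (Fin r) ℝ :=
  (∏ i, (1 + C (MvPolynomial.X i) * X + X ^ 2) ^ e i : (MvPolynomial (Fin r) ℝ)[X]).coeff k

/-- The moments `1, 0, 1, 0, 3, 0, 15, …` of the standard normal law. -/
def gauss : ℕ → ℝ
  | 0 => 1
  | 1 => 0
  | (m + 2) => (m + 1) * gauss m

/-- The expectation of `P(Z)`, `Z_i` independent standard normal variables. -/
noncomputable def expect (P : MvPolynomial (Fin r) ℝ) : ℝ := ∑ s ∈ P.support, P.coeff s * ∏ i, gauss (s i)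

/-- The predicted rank `R = ∑_i e_i q_i μ_{2m-2}(e - 1_i)`. -/
noncomputable def rank (e : Fin r → ℕ) (m : ℕ) : ℝ :=
  ∑ i, (e i : ℝ) * 𝓕.q i * expect (kunneth (Function.update e i (e i - 1)) (2 * m - 2))

/-- The integer vectors `t` with `N x ≤ t x < N x + L x`. -/
noncomputable def box {κ : Type} [Fintype κ] [DecidableEq κ] (N : κ → ℤ) (L : κ → ℕ) : Finset (κ → ℤ) :=
  Fintype.piFinset fun i => Ico (N i) (N i + L i)

/-- The sum `(log log X) ^ (-1 / 2) ∑_{p ≤ exp ((log X) ^ s)} z_p` over primes. -/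
noncomputable def path (z : ℕ → ℝ) (X : ℕ) (s : ℝ≥0) : ℝ :=
  (∑ p ∈ (Icc 1 ⌊Real.exp (Real.log X ^ (s : ℝ))⌋₊).filter Nat.Prime, z p) / √(Real.log (Real.log X))

/-- The probability that `B(τ) ≤ x(τ)` for all `τ` in the finite set `I`, for a standard Brownian motion `B`. -/
noncomputable def brownian (I : Finset ℝ≥0) (x : I → ℝ) : ℝ := (BrownianReal.projectiveFamily I).real (Set.Iic x)

/-- For `t` equidistributed in boxes with sides at least `X ^ X₁` the processes `s ↦ path (z t) X s`, `0 ≤ s ≤ 1`, converge in law to the standard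
Brownian motion: the finite dimensional distributions converge, and for every `ε` there is a `δ` such that, except for a proportion `ε` of
the `t`, the process varies by at most `ε` on intervals of length `δ`, for all large `X`. -/
def ConvergesToBrownian {κ : Type} [Fintype κ] [DecidableEq κ] (z : (κ → ℤ) → ℕ → ℝ) : Prop :=
  (∀ I : Finset ℝ≥0, (∀ s ∈ I, 0 < s ∧ s ≤ 1) → ∀ (x : I → ℝ) (ε : ℝ), 0 < ε → ∃ X₁ : ℕ, ∀ X : ℕ, X₁ ≤ X →
    ∀ (N : κ → ℤ) (L : κ → ℕ), (∀ i, (X : ℝ) ^ X₁ ≤ L i) →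
      |({t ∈ (box N L : Set (κ → ℤ)) | ∀ s : I, path (z t) X s ≤ x s}.ncard : ℝ) / ∏ i, (L i : ℝ) - brownian I x| ≤ ε) ∧
  ∀ ε : ℝ, 0 < ε → ∃ δ : ℝ, 0 < δ ∧ ∃ X₁ : ℕ, ∀ X : ℕ, X₁ ≤ X →
    ∀ (N : κ → ℤ) (L : κ → ℕ), (∀ i, (X : ℝ) ^ X₁ ≤ L i) →
      ({t ∈ (box N L : Set (κ → ℤ)) | ∃ σ τ : ℝ≥0, σ ≤ τ ∧ τ ≤ 1 ∧ (τ : ℝ) - σ ≤ δ ∧
        ε < |path (z t) X τ - path (z t) X σ|}.ncard : ℝ) ≤ ε * ∏ i, (L i : ℝ)

/-- All `f_i` are separable of degree `q_i + d_i` over `ℚ` for all `t` in a box with sides at least `T` except for a proportion `O(1 / T)`. -/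
def MostlySmooth : Prop :=
  ∃ D : ℝ, ∀ (N : Index 𝓕.d → ℤ) (L : Index 𝓕.d → ℕ) (T : ℝ), 0 < T → (∀ i, T ≤ L i) →
    ({t ∈ (box N L : Set (Index 𝓕.d → ℤ)) | ¬ ∀ i, (poly 𝓕 t i).natDegree = 𝓕.q i + 𝓕.d i ∧
      ((poly 𝓕 t i).map (Int.castRingHom ℚ)).Separable}.ncard : ℝ) ≤ D / T * ∏ i, (L i : ℝ)

lemma gauss_eq (k : ℕ) : gauss k = (Q282MM.gm k : ℝ) := by
  have h : ∀ k, gauss k = (Q282MM.gm k : ℝ) ∧ gauss (k + 1) = (Q282MM.gm (k + 1) : ℝ) := by
    intro k
    induction k with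
    | zero =>
      refine ⟨?_, ?_⟩
      · rw [Q285HS.gm_zero]
        simp [gauss]
      · rw [Q285HS.gm_odd (by decide)]
        simp [gauss]
    | succ k ih =>
      refine ⟨ih.2, ?_⟩
      rw [U345P.gm_rec (k + 1), Nat.add_sub_cancel]
      show ((k : ℝ) + 1) * gauss k = _
      rw [ih.1]
      push_cast
      ring
  exact (h k).1

lemma expect_eq (P : MvPolynomial (Fin r) ℝ) : expect P = U345P.E P := by
  unfold expect U345P.E
  refine sum_congr rfl fun s _ => ?_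
  congr 1
  exact prod_congr rfl fun i _ => gauss_eq _

lemma poly_eq (t : Index 𝓕.d → ℤ) (i : Fin r) : poly 𝓕 t i = U345P.mem (RingHom.id ℤ) 𝓕.F 𝓕.x t i := by
  unfold poly U345P.mem U345P.gp U345P.poly
  rw [Polynomial.map_id, Polynomial.map_id]

lemma zw_eq (t : Index 𝓕.d → ℤ) (p : ℕ) (i : Fin r) :
    U345P.zw 𝓕.d (fun p i u => U345P.zg p (𝓕.d i) (U345P.red p (𝓕.F i)) (U345P.red p (U345P.gp (𝓕.x i))) u) p (fun x => (t x : ZMod p)) i =
      a 𝓕 t p i / √(p : ℝ) := by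
  have h : ∀ y : ZMod p, ((poly 𝓕 t i).map (Int.castRingHom (ZMod p))).eval y =
      U345P.red p (𝓕.F i) y + U345P.red p (U345P.gp (𝓕.x i)) y * U345P.ev p (𝓕.d i) y fun j => ((t ⟨i, j⟩ : ℤ) : ZMod p) := by
    intro y
    have h1 : U345P.ev p (𝓕.d i) y (fun j => ((t ⟨i, j⟩ : ℤ) : ZMod p)) =
        ((∑ j : Fin (𝓕.d i + 1), C (t ⟨i, j⟩) * X ^ (j : ℕ) : ℤ[X]).map (Int.castRingHom (ZMod p))).eval y := by
      rw [Polynomial.map_sum, eval_finsetSum]
      show ∑ j : Fin (𝓕.d i + 1), ((t ⟨i, j⟩ : ℤ) : ZMod p) * y ^ (j : ℕ) = _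
      refine sum_congr rfl fun j _ => ?_
      simp
    rw [h1]
    unfold poly U345P.red U345P.gp
    rw [Polynomial.map_add, Polynomial.map_mul, eval_add, eval_mul]
  have hset : {P : ZMod p × ZMod p | P.2 ^ 2 = ((poly 𝓕 t i).map (Int.castRingHom (ZMod p))).eval P.1} =
      {P : ZMod p × ZMod p | P.2 ^ 2 = U345P.red p (𝓕.F i) P.1 + U345P.red p (U345P.gp (𝓕.x i)) P.1 *
        U345P.ev p (𝓕.d i) P.1 fun j => ((t ⟨i, j⟩ : ℤ) : ZMod p)} := by
    simp only [h]
  unfold a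
  rw [hset]
  rfl

lemma trace_eq (e : Fin r → ℕ) (k : ℕ) (t : Index 𝓕.d → ℤ) (p : ℕ) (hp : p.Prime) :
    trace 𝓕 e k t p = MvPolynomial.eval (U345P.zw 𝓕.d (fun p i u => U345P.zg p (𝓕.d i) (U345P.red p (𝓕.F i)) (U345P.red p (U345P.gp (𝓕.x i))) u) p
      fun x => (t x : ZMod p)) (U345P.T e k) * √(p : ℝ) ^ k := by
  have h1 : (U345P.zw 𝓕.d (fun p i u => U345P.zg p (𝓕.d i) (U345P.red p (𝓕.F i)) (U345P.red p (U345P.gp (𝓕.x i))) u) p
      fun x => (t x : ZMod p)) = fun i => a 𝓕 t p i / √(p : ℝ) := funext fun i => zw_eq 𝓕 t p i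
  rw [h1]
  exact U345P.T_scale e k (a 𝓕 t p) p (by exact_mod_cast hp.pos)

/-- **Products of powers of random curves with given rational points.** -/
theorem result (e : Fin r → ℕ) (m : ℕ) (he : ∀ i, 1 ≤ e i) (hm : 1 ≤ m) (hd : m ≤ ∑ i, e i)
    (hde : ∀ i, 4 * min (2 * m - 1) (e i) ≤ 𝓕.d i + 1) :
    (∀ t i k, (poly 𝓕 t i).eval (𝓕.x i k) = 𝓕.c i k ^ 2) ∧
    0 < expect (kunneth e (2 * m - 1) ^ 2) ∧
    (ConvergesToBrownian fun (t : Index 𝓕.d → ℤ) p =>
      (-trace 𝓕 e (2 * m - 1) t p / (p : ℝ) ^ m - rank 𝓕 e m / p) / √(expect (kunneth e (2 * m - 1) ^ 2))) ∧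
    (m = 1 → rank 𝓕 e m = ∑ i, (e i : ℝ) * 𝓕.q i ∧ expect (kunneth e (2 * m - 1) ^ 2) = ∑ i, (e i : ℝ) ^ 2) ∧
    MostlySmooth 𝓕 := by
  classical
  have hk : ∀ (e : Fin r → ℕ) k, kunneth e k = U345P.T e k := fun _ _ => rfl
  obtain ⟨l, rfl⟩ : ∃ l, m = l + 1 := ⟨m - 1, by omega⟩
  have e1 : 2 * (l + 1) - 1 = 2 * l + 1 := by omega
  have e2 : 2 * (l + 1) - 2 = 2 * l := by omega
  rw [e1] at hde ⊢
  have hdi : ∀ i, 3 ≤ 𝓕.d i := by
    intro i
    have h1 := hde i
    have h2 := he i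
    have h3 : 1 ≤ min (2 * l + 1) (e i) := le_min (by omega) h2
    omega
  obtain ⟨s₀, hs⟩ := U345P.T_ne e (2 * l + 1) (by omega)
  have hpos : 0 < U345P.E (U345P.T e (2 * l + 1) ^ 2) := U345P.sq_pos _ (U345P.T_nonneg e (2 * l + 1)) s₀ hs
  obtain ⟨p₀, hMD⟩ := U345P.md_curves 𝓕.d 𝓕.q 𝓕.F 𝓕.x 𝓕.c 𝓕.x_inj 𝓕.c_ne 𝓕.value
  have hrank : rank 𝓕 e (l + 1) = ∑ i, (𝓕.q i : ℝ) * U345P.E (MvPolynomial.pderiv i (U345P.T e (2 * l + 1))) := by
    unfold rank
    rw [e2]
    refine sum_congr rfl fun i _ => ?_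
    rw [U345P.drift_T, expect_eq, hk]
    ring
  refine ⟨?_, by rw [expect_eq, hk]; exact hpos, ?_, ?_, ?_⟩
  · intro t i k
    unfold poly
    rw [eval_add, eval_mul, 𝓕.value]
    have h0 : (∏ k, (X - C (𝓕.x i k)) : ℤ[X]).eval (𝓕.x i k) = 0 := by
      rw [eval_prod]
      exact prod_eq_zero (mem_univ k) (by simp)
    rw [h0, zero_mul, add_zero]
  · have hdeg : ∀ i, 4 * (U345P.T e (2 * l + 1)).degreeOf i ≤ 𝓕.d i + 1 := fun i =>
      (Nat.mul_le_mul_left 4 (le_min (U345P.T_deg_k e (2 * l + 1) i) (U345P.T_deg_e e (2 * l + 1) i))).trans (hde i)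
    refine U345P.convLL_md hMD (U345P.T e (2 * l + 1)) hdeg (fun s hs => ?_) hpos _ fun t p hp => ?_
    · have h1 := U345P.T_parity e (2 * l + 1) s (MvPolynomial.mem_support_iff.1 hs)
      by_contra hcon
      push Not at hcon
      have h2 : Even (∑ i, s i) := even_sum _ fun i _ => Nat.not_odd_iff_even.1 (hcon i)
      have h3 : Even (2 * l + 1) := (Nat.even_add.1 h1).2 h2
      exact (Nat.not_even_iff_odd.2 ⟨l, rfl⟩) h3
    · have hp0 : (0 : ℝ) < p := by exact_mod_cast hp.pos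
      have hs0 : 0 < √(p : ℝ) := Real.sqrt_pos.2 hp0
      have hss : √(p : ℝ) * √(p : ℝ) = p := Real.mul_self_sqrt hp0.le
      rw [expect_eq, hk, trace_eq 𝓕 e (2 * l + 1) t p hp, hrank]
      congr 2
      have h1 : √(p : ℝ) ^ (2 * l + 1) = (p : ℝ) ^ l * √(p : ℝ) := by
        rw [pow_succ, pow_mul, Real.sq_sqrt hp0.le]
      have h2 : (p : ℝ) ^ (l + 1) = (p : ℝ) ^ l * (√(p : ℝ) * √(p : ℝ)) := by
        rw [hss, pow_succ]
      rw [h1, h2]
      field_simp
  · intro h1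
    have hl : l = 0 := by omega
    subst hl
    refine ⟨?_, ?_⟩
    · rw [hrank]
      refine sum_congr rfl fun i _ => ?_
      rw [U345P.drift_T]
      show (𝓕.q i : ℝ) * (e i * U345P.E (U345P.T _ 0)) = _
      rw [U345P.T_zero_eq, U345P.E_one]
      ring
    · rw [expect_eq, hk]
      exact U345P.var_one e
  · obtain ⟨D, _, hD⟩ := U345P.sep_count_mem (d := 𝓕.d) 𝓕.F 𝓕.x 𝓕.c 𝓕.c_ne 𝓕.value 𝓕.deg (fun i => by have := hdi i; omega)
      (fun i => by have := hdi i; omega)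
    refine ⟨D, fun N L T hT hL => ?_⟩
    simp only [poly_eq]
    have h := hD N L T hT hL ((Q282.GK.kbox N L).filter fun t => ¬ ∀ i, (U345P.mem (RingHom.id ℤ) 𝓕.F 𝓕.x t i).natDegree = 𝓕.q i + 𝓕.d i ∧
      ((U345P.mem (RingHom.id ℤ) 𝓕.F 𝓕.x t i).map (Int.castRingHom ℚ)).Separable) (filter_subset _ _) fun t ht => (mem_filter.1 ht).2
    refine le_trans (le_of_eq ?_) h
    rw [← Set.ncard_coe_finset, coe_filter]
    rfl

end Pool.Agent.Results.MP_29b22a_nt.PowersOfRandomCurves
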